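import Pool.Agent.W845.TR.Base

/-!
# TR-GG: the four game lemmas on boards with boundary condition
-/

set_option autoImplicit false

namespace Pool.Agent.W253.TR

open Pool.Agent.W845.TR

variable {d : ℕ}

theorem bd_subset (Lam : Finset (S d)) (b : Bool) (O : Set (S d)) : bd Lam b O ⊆ Lam := by
  intro y hy
  exact (mem_bd.1 hy).1

/-- transfer of a win from the finite board -/
theorem transfer {Lam : Finset (S d)} {b : Bool} {O : Set (S d)} {n : ℕ} {x : S d}
    {A : Finset (S d)} (hx : par x = b) (h : W ((bd Lam b O : Finset (S d)) : Set (S d)) n x A) :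
    W O n x A := by
  induction n generalizing x A with
  | zero => exact h
  | succ n ih =>
    obtain ⟨y, hy, h2⟩ := h
    have hyH := mem_bd.1 (Finset.mem_coe.1 hy.2.1)
    have hpy : par y = !b := by rw [par_adj hy.1, hx]
    have hnb : nb y ⊆ Lam := by
      rcases hyH.2.1 with h3 | h3
      · rw [hpy] at h3
        cases b <;> simp at h3
      · exact h3
    refine ⟨y, ⟨hy.1, hyH.2.2, hy.2.2⟩, fun z hz => ?_⟩
    have hpz : par z = b := by
      rw [par_adj hz.1, hpy]
      simp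
    refine ih hpz (h2 z ⟨hz.1, ?_, hz.2.2⟩)
    exact Finset.mem_coe.2 (mem_bd.2 ⟨hnb (mem_nb.2 hz.1), Or.inl hpz, hz.2.1⟩)

theorem g1 : St_MAT → St_G1 := by
  intro hM d Lam O x hx hxO hI
  have hxH : x ∈ bd Lam (par x) O := mem_bd.2 ⟨hx, Or.inl rfl, hxO⟩
  have h1 := (hM d _ x hxH).1 hI
  exact W_mono (Finset.card_le_card (bd_subset _ _ _)) (transfer rfl h1)

theorem g2 : St_MAT → St_G2 := by
  intro hM d Lam O x hx hnb hxO hI y hy
  have hxH : x ∈ bd Lam (!par x) O := mem_bd.2 ⟨hx, Or.inr hnb, hxO⟩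
  have hpy : par y = !par x := par_adj hy.1
  have hyH : y ∈ bd Lam (!par x) O := mem_bd.2 ⟨hnb (mem_nb.2 hy.1), Or.inl hpy, hy.2.1⟩
  have h1 := (hM d _ x hxH).2 hI y ⟨hy.1, Finset.mem_coe.2 hyH, hy.2.2⟩
  exact W_mono (Finset.card_le_card (bd_subset _ _ _)) (transfer hpy h1)

/-- the boards agree near `x` -/
theorem agree {Lam : Finset (S d)} {b : Bool} {O : Set (S d)} {x : S d} {m : ℤ}
    (h : ∀ y, l1 x y ≤ m + 1 → y ∈ Lam) {w : S d} (hw : l1 x w ≤ m) :
    w ∈ O ↔ w ∈ ((bd Lam b O : Finset (S d)) : Set (S d)) := by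
  rw [Finset.mem_coe, mem_bd]
  constructor
  · intro h1
    refine ⟨h w (by omega), Or.inr ?_, h1⟩
    intro z hz
    have h2 : l1 w z = 1 := mem_nb.1 hz
    exact h z (by have := l1_tri x w z; omega)
  · exact fun h1 => h1.2.2

theorem gd1 : St_MAT → St_GD1 := by
  intro hM d Lam O x n hLam hxO hW
  by_contra hc
  push Not at hc
  have hx : x ∈ Lam := hLam x (by rw [l1_self]; positivity)
  have hxH : x ∈ bd Lam (par x) O := mem_bd.2 ⟨hx, Or.inl rfl, hxO⟩
  have h1 := (hM d _ x hxH).2 hc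
  have h2 : W ((bd Lam (par x) O : Finset (S d)) : Set (S d)) n x {x} :=
    W_local (fun w hw => agree hLam hw) hW
  exact W_excl _ n (bd Lam (par x) O).card le_rfl x {x} h2 h1

theorem gd2 : St_MAT → St_GD2 := by
  intro hM d Lam O x n hLam hxO hW I hI
  by_contra hc
  have hx : x ∈ Lam := hLam x (by rw [l1_self]; positivity)
  have hnb : nb x ⊆ Lam := by
    intro z hz
    have h2 : l1 x z = 1 := mem_nb.1 hz
    exact hLam z (by rw [h2]; omega)
  have hxH : x ∈ bd Lam (!par x) O := mem_bd.2 ⟨hx, Or.inr hnb, hxO⟩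
  have h1 := (hM d _ x hxH).1 ⟨I, hI, hc⟩
  refine W_excl _ (bd Lam (!par x) O).card n le_rfl x {x} h1 ?_
  intro y hy
  have hyO : Legal O x {x} y := ⟨hy.1, (mem_bd.1 (Finset.mem_coe.1 hy.2.1)).2.2, hy.2.2⟩
  refine W_local (fun w hw => ?_) (hW y hyO)
  have hxy : l1 x y = 1 := hy.1
  exact agree (x := x) (m := 2 * n + 1) (fun z hz => hLam z (by omega))
    (by have := l1_tri x y w; omega)

end Pool.Agent.W253.TR
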